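import Pool.Agent.LG39.Main

/-!
MP_e5681c_al: the free product in a variety of lattice-ordered groups preserves solubility of the
word problem only if the variety is trivial.
-/

namespace Pool.Agent.Results.MP_e5681c_al.TrivialOnly

open LG39

/-- First part: there are two abelian lattice-ordered groups `G` (with four generators) and `H`
(with two generators), both with soluble word problem, such that for every nontrivial variety (given
by a set `E` of identities) `G` and `H` belong to it, their free product in this variety exists,
and its word problem is insoluble.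
Second part: the free product of the variety preserves solubility of the word problem if and only
if the variety is trivial.  Third part: the same for finitely generated lattice-ordered groups. -/
theorem result :
    (∃ (G H : Type) (_ : LGrp G) (_ : LGrp H) (x : ℕ → G) (y : ℕ → H),
      (∀ a b : G, a * b = b * a) ∧ (∀ a b : H, a * b = b * a) ∧
      Gens x ∧ Gens y ∧ (∀ k, 4 ≤ k → x k = 1) ∧ (∀ k, 2 ≤ k → y k = 1) ∧
      Soluble x ∧ Soluble y ∧
      ∀ E : Set (Tm ℕ × Tm ℕ), ¬ TrivialVar E →
        Models E G ∧ Models E H ∧
        (∃ (P : Type) (_ : LGrp P) (i : G → P) (j : H → P), IsFreeProd E i j) ∧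
        ∀ (P : Type) [LGrp P] (i : G → P) (j : H → P), IsFreeProd E i j →
          ¬ Soluble (merge (i ∘ x) (j ∘ y))) ∧
    (∀ E : Set (Tm ℕ × Tm ℕ), Preserves E ↔ TrivialVar E) ∧
    (∀ E : Set (Tm ℕ × Tm ℕ), PreservesFG E ↔ TrivialVar E) :=
  main

end Pool.Agent.Results.MP_e5681c_al.TrivialOnly
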